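import Pool.Agent.Helper54_QE.Defs

/-!
# Module CYL: approximation by cylinder functions
-/

set_option autoImplicit false
set_option linter.unusedSectionVars false

open scoped InnerProductSpace ComplexConjugate Topology ENNReal symmDiff
open MeasureTheory Filter

noncomputable section

namespace Pool.Agent.QE

open Pool.Agent.Anderson Pool.Agent.Helper54.Bal

/-- bounded measurable cylinder functions -/
def IsCyl {d : ℕ} (g : Cfg d → ℂ) : Prop :=
  ∃ (Λ : Finset (Site d)) (C' : ℝ), Measurable g ∧ (∀ V, ‖g V‖ ≤ C') ∧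
    (∀ V W : Cfg d, (∀ x ∈ Λ, V x = W x) → g V = g W)

theorem IsCyl.add {d : ℕ} {f g : Cfg d → ℂ} (hf : IsCyl f) (hg : IsCyl g) : IsCyl (f + g) := by
  classical
  obtain ⟨Λ, C, h1, h2, h3⟩ := hf
  obtain ⟨Λ', C', h1', h2', h3'⟩ := hg
  refine ⟨Λ ∪ Λ', C + C', h1.add h1', fun V => ?_, fun V W h => ?_⟩
  · exact (norm_add_le _ _).trans (add_le_add (h2 V) (h2' V))
  · rw [Pi.add_apply, Pi.add_apply,
      h3 V W fun x hx => h x (Finset.mem_union_left _ hx),
      h3' V W fun x hx => h x (Finset.mem_union_right _ hx)]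

theorem isCyl_indicator {d : ℕ} (c : ℂ) {t : Set (Cfg d)}
    (ht : t ∈ measurableCylinders fun _ : Site d => ℝ) : IsCyl (t.indicator fun _ => c) := by
  obtain ⟨s, S, hS, rfl⟩ := (mem_measurableCylinders _).1 ht
  refine ⟨s, ‖c‖, measurable_const.indicator hS.cylinder, fun V => ?_, fun V W h => ?_⟩
  · exact norm_indicator_le_norm_self _ _
  · have e : V ∈ cylinder s S ↔ W ∈ cylinder s S := by
      rw [mem_cylinder, mem_cylinder]
      have : s.restrict V = s.restrict W := by
        funext x
        exact h x.1 x.2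
      rw [this]
    by_cases hV : V ∈ cylinder s S
    · rw [Set.indicator_of_mem hV, Set.indicator_of_mem (e.1 hV)]
    · rw [Set.indicator_of_notMem hV, Set.indicator_of_notMem (fun h' => hV (e.2 h'))]

theorem measureDense_cyl {d : ℕ} (P : Measure (Cfg d)) [IsFiniteMeasure P] :
    P.MeasureDense (measurableCylinders fun _ : Site d => ℝ) :=
  Measure.MeasureDense.of_generateFrom_isSetAlgebra_finite P isSetAlgebra_measurableCylinders
    generateFrom_measurableCylinders.symm

theorem cyl : CylStatement := by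
  intro d μ _ f hf C hC κ hκ
  have hmem : MemLp f 2 (PP d μ) :=
    MemLp.of_bound hf.aestronglyMeasurable C (Eventually.of_forall hC)
  have hε : ENNReal.ofReal (Real.sqrt κ) ≠ 0 := by
    rw [Ne, ENNReal.ofReal_eq_zero, not_le]
    exact Real.sqrt_pos.2 hκ
  obtain ⟨g, hg, Λ, C', h1, h2, h3⟩ := hmem.induction_dense (by simp) IsCyl (by
    intro c s hs _ ε hε
    obtain ⟨η, hη, h⟩ := exists_eLpNorm_indicator_le (μ := PP d μ) (p := 2) (by simp) c hε
    obtain ⟨t, ht, hst⟩ := (measureDense_cyl (PP d μ)).approx s hs (measure_ne_top _ _) η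
      (by exact_mod_cast hη)
    refine ⟨t.indicator fun _ => c, ?_, isCyl_indicator c ht⟩
    refine le_trans (le_of_eq ?_) (h (s ∆ t) ?_)
    · refine eLpNorm_congr_norm_ae (Eventually.of_forall fun V => ?_)
      rw [Pi.sub_apply]
      by_cases hV : V ∈ s <;> by_cases hV' : V ∈ t
      · rw [Set.indicator_of_mem hV, Set.indicator_of_mem hV', sub_self,
          Set.indicator_of_notMem]
        simp [Set.mem_symmDiff, hV, hV']
      · rw [Set.indicator_of_mem hV, Set.indicator_of_notMem hV',
          Set.indicator_of_mem (by simp [Set.mem_symmDiff, hV, hV'])]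
        simp
      · rw [Set.indicator_of_notMem hV, Set.indicator_of_mem hV',
          Set.indicator_of_mem (by simp [Set.mem_symmDiff, hV, hV'])]
        simp
      · rw [Set.indicator_of_notMem hV, Set.indicator_of_notMem hV', sub_self,
          Set.indicator_of_notMem]
        simp [Set.mem_symmDiff, hV, hV']
    · simpa using hst.le)
    (fun f g => IsCyl.add) (fun f hf => by
      obtain ⟨_, _, h, _⟩ := hf
      exact h.aestronglyMeasurable) hε
  refine ⟨g, Λ, C', h1, h2, h3, ?_⟩
  have e : eLpNorm (f - g) 2 (PP d μ) = (∫⁻ V, ‖f V - g V‖ₑ ^ 2 ∂(PP d μ)) ^ (1 / (2:ℝ)) := by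
    rw [eLpNorm_eq_lintegral_rpow_enorm_toReal (by simp) (by simp)]
    simp
  rw [e] at hg
  have h4 := pow_le_pow_left' hg 2
  rw [← ENNReal.rpow_natCast, ← ENNReal.rpow_mul] at h4
  norm_num at h4
  refine h4.trans (le_of_eq ?_)
  rw [← ENNReal.ofReal_pow (Real.sqrt_nonneg _), Real.sq_sqrt hκ.le]

end Pool.Agent.QE
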