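import Pool.Agent.Helper54_QE.Defs

/-!
# Module CAUCHY: `L²` convergence of the bounded transforms as `ε → 0`
-/

set_option autoImplicit false
set_option linter.unusedSectionVars false

open scoped InnerProductSpace ComplexConjugate Topology ENNReal
open MeasureTheory Filter

noncomputable section

namespace Pool.Agent.QE.Cau

open Pool.Agent.Anderson Pool.Agent.Helper54.Bal

/-! ### shift of the contour in a strip -/

theorem strip_shift {R : ℂ → ℂ} {c : ℝ}
    (hd : ∀ z : ℂ, z.im ∈ Set.uIcc 0 c → DifferentiableAt ℂ R z)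
    (hb : ∀ z : ℂ, z.im ∈ Set.uIcc 0 c → ‖R z‖ ≤ (1 + z.re ^ 2)⁻¹) :
    ∫ E : ℝ, R (zz 0 E) = ∫ E : ℝ, R (zz c E) := by
  have h0m : (0:ℝ) ∈ Set.uIcc 0 c := Set.left_mem_uIcc
  have hcm : c ∈ Set.uIcc 0 c := Set.right_mem_uIcc
  have hcont : ∀ y : ℝ, y ∈ Set.uIcc 0 c → Continuous fun E : ℝ => R (zz y E) := by
    intro y hy
    rw [continuous_iff_continuousAt]
    intro E
    exact ContinuousAt.comp (f := zz y) (g := R)
      (hd (zz y E) (by simpa using hy)).continuousAt (continuous_zz y).continuousAt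
  have hbd : ∀ y : ℝ, y ∈ Set.uIcc 0 c → ∀ E : ℝ, ‖R (zz y E)‖ ≤ (1 + E ^ 2)⁻¹ := by
    intro y hy E
    have := hb (zz y E) (by simpa using hy)
    simpa using this
  have hint : ∀ y : ℝ, y ∈ Set.uIcc 0 c → Integrable fun E : ℝ => R (zz y E) := by
    intro y hy
    exact integrable_inv_one_add_sq.mono' (hcont y hy).aestronglyMeasurable
      (Eventually.of_forall (hbd y hy))
  have hrect : ∀ T : ℝ,
      (∫ E in (-T)..T, R (zz 0 E)) - (∫ E in (-T)..T, R (zz c E)) =
        Complex.I • (∫ y in (0:ℝ)..c, R (zz y (-T))) -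
          Complex.I • (∫ y in (0:ℝ)..c, R (zz y T)) := by
    intro T
    have h := Complex.integral_boundary_rect_eq_zero_of_differentiableOn R
      (zz 0 (-T)) (zz c T) (by
        intro z hz
        refine (hd z ?_).differentiableWithinAt
        have := hz.2
        simpa only [zz_im, Set.mem_preimage] using this)
    simp only [zz_im, zz_re] at h
    have e1 : ∀ y : ℝ, (fun x : ℝ => R ((x : ℂ) + (y : ℂ) * Complex.I)) = fun x => R (zz y x) :=
      fun y => rfl
    have e2 : ∀ x : ℝ, (fun y : ℝ => R ((x : ℂ) + (y : ℂ) * Complex.I)) = fun y => R (zz y x) :=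
      fun x => rfl
    simp only [e1, e2] at h
    have h' := sub_eq_zero.1 h
    rw [← h']
    abel
  have hL : Tendsto (fun T : ℝ => (∫ E in (-T)..T, R (zz 0 E)) -
      (∫ E in (-T)..T, R (zz c E))) atTop
      (𝓝 ((∫ E : ℝ, R (zz 0 E)) - ∫ E : ℝ, R (zz c E))) :=
    (intervalIntegral_tendsto_integral (hint 0 h0m) tendsto_neg_atTop_atBot tendsto_id).sub
      (intervalIntegral_tendsto_integral (hint c hcm) tendsto_neg_atTop_atBot tendsto_id)
  have hside : ∀ T : ℝ, ∀ s : ℝ, s ^ 2 = T ^ 2 →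
      ‖∫ y in (0:ℝ)..c, R (zz y s)‖ ≤ (1 + T ^ 2)⁻¹ * |c - 0| := by
    intro T s hs
    refine intervalIntegral.norm_integral_le_of_norm_le_const ?_
    intro y hy
    have := hbd y (Set.uIoc_subset_uIcc hy) s
    rwa [hs] at this
  have hR : Tendsto (fun T : ℝ => Complex.I • (∫ y in (0:ℝ)..c, R (zz y (-T))) -
      Complex.I • (∫ y in (0:ℝ)..c, R (zz y T))) atTop (𝓝 0) := by
    have h0 : Tendsto (fun T : ℝ => (1 + T ^ 2)⁻¹ * |c - 0| + (1 + T ^ 2)⁻¹ * |c - 0|) atTop
        (𝓝 0) := by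
      have h1 : Tendsto (fun T : ℝ => (1 + T ^ 2)⁻¹) atTop (𝓝 0) :=
        (tendsto_atTop_add_const_left _ _ (tendsto_pow_atTop two_ne_zero)).inv_tendsto_atTop
      have h2 := (h1.mul_const |c - 0|).add (h1.mul_const |c - 0|)
      simpa using h2
    refine squeeze_zero_norm' ?_ h0
    refine Eventually.of_forall fun T => ?_
    refine (norm_sub_le _ _).trans ?_
    rw [norm_smul, norm_smul, Complex.norm_I, one_mul, one_mul]
    exact add_le_add (hside T _ (by ring)) (hside T _ rfl)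
  have := tendsto_nhds_unique (hL.congr hrect) hR
  exact sub_eq_zero.1 this

/-- the midpoint identity for functions bounded by `1 / |z + i|` on the upper half plane -/
theorem midpoint {g : ℂ → ℂ} (hd : ∀ z : ℂ, 0 < z.im → DifferentiableAt ℂ g z)
    (hb : ∀ z : ℂ, 0 < z.im → ‖g z‖ ≤ ‖z + Complex.I‖⁻¹) {a b : ℝ} (ha : 0 < a) (hb' : 0 < b) :
    ∫ E : ℝ, conj (g (zz a E)) * g (zz b E) =
      ∫ E : ℝ, conj (g (zz ((a + b) / 2) E)) * g (zz ((a + b) / 2) E) := by
  set R : ℂ → ℂ := fun z => conj (g (conj z + (a : ℂ) * Complex.I)) *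
    g (z + (b : ℂ) * Complex.I) with hR
  have hstrip : ∀ z : ℂ, z.im ∈ Set.uIcc 0 ((a - b) / 2) → 0 < a - z.im ∧ 0 < b + z.im := by
    intro z hz
    rcases le_total 0 ((a - b) / 2) with h | h
    · rw [Set.uIcc_of_le h] at hz
      constructor
      · have := hz.2; linarith
      · have := hz.1; linarith
    · rw [Set.uIcc_of_ge h] at hz
      constructor
      · have := hz.2; linarith
      · have := hz.1; linarith
  have hRd : ∀ z : ℂ, z.im ∈ Set.uIcc 0 ((a - b) / 2) → DifferentiableAt ℂ R z := by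
    intro z hz
    obtain ⟨h1, h2⟩ := hstrip z hz
    refine DifferentiableAt.mul ?_ ?_
    · have h3 : DifferentiableAt ℂ (fun u : ℂ => g (u + (a : ℂ) * Complex.I)) (conj z) := by
        refine DifferentiableAt.comp (g := g) (conj z) (hd _ ?_)
          (differentiableAt_id.add_const _)
        simp
        linarith
      have h4 := h3.conj_conj
      rw [Complex.conj_conj] at h4
      exact h4
    · refine DifferentiableAt.comp (g := g) z (hd _ ?_) (differentiableAt_id.add_const _)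
      simp
      linarith
  have hnorm : ∀ x y : ℝ, 0 < y → ‖g (zz y x)‖ ≤ Real.sqrt ((1 + x ^ 2)⁻¹) := by
    intro x y hy
    refine (hb _ (by simpa using hy)).trans ?_
    rw [Real.sqrt_inv]
    refine inv_anti₀ (Real.sqrt_pos.2 (by positivity)) ?_
    have e : zz y x + Complex.I = zz (y + 1) x := by unfold zz; push_cast; ring
    rw [e]
    refine Real.sqrt_le_iff.2 ⟨norm_nonneg _, ?_⟩
    rw [normSq_zz]
    nlinarith
  have hzz : ∀ z : ℂ, ∀ t : ℝ, z + (t : ℂ) * Complex.I = zz (z.im + t) z.re := by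
    intro z t
    apply Complex.ext <;> simp
  have hRb : ∀ z : ℂ, z.im ∈ Set.uIcc 0 ((a - b) / 2) → ‖R z‖ ≤ (1 + z.re ^ 2)⁻¹ := by
    intro z hz
    obtain ⟨h1, h2⟩ := hstrip z hz
    rw [hR]
    simp only
    rw [norm_mul, RCLike.norm_conj, hzz, hzz]
    simp only [Complex.conj_im, Complex.conj_re]
    have e1 := hnorm z.re (-z.im + a) (by linarith)
    have e2 := hnorm z.re (z.im + b) (by linarith)
    calc _ ≤ Real.sqrt ((1 + z.re ^ 2)⁻¹) * Real.sqrt ((1 + z.re ^ 2)⁻¹) := by gcongr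
      _ = _ := Real.mul_self_sqrt (by positivity)
  have key := strip_shift hRd hRb
  have e1 : ∀ E : ℝ, R (zz 0 E) = conj (g (zz a E)) * g (zz b E) := by
    intro E
    rw [hR]
    simp only
    rw [hzz, hzz]
    simp
  have e2 : ∀ E : ℝ, R (zz ((a - b) / 2) E) =
      conj (g (zz ((a + b) / 2) E)) * g (zz ((a + b) / 2) E) := by
    intro E
    rw [hR]
    simp only
    rw [hzz, hzz]
    simp only [Complex.conj_im, Complex.conj_re, zz_im, zz_re]
    have h1 : -((a - b) / 2) + a = (a + b) / 2 := by ring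
    have h2 : (a - b) / 2 + b = (a + b) / 2 := by ring
    rw [h1, h2]
  rw [integral_congr_ae (Eventually.of_forall e1), integral_congr_ae (Eventually.of_forall e2)]
    at key
  exact key

/-! ### midpoint convexity and the Cauchy property -/

theorem antitone_of_midpoint {N : ℝ → ℝ} {M : ℝ} (hM : ∀ a, 0 < a → N a ≤ M)
    (hmid : ∀ a b, 0 < a → 0 < b → 2 * N ((a + b) / 2) ≤ N a + N b) :
    ∀ a b, 0 < a → a ≤ b → N b ≤ N a := by
  intro a b ha hab
  by_contra hcon
  push Not at hcon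
  have hlt : a < b := by
    rcases hab.eq_or_lt with h | h
    · rw [h] at hcon; exact absurd hcon (lt_irrefl _)
    · exact h
  set h := b - a with hh
  have hh0 : 0 < h := by rw [hh]; linarith
  set δ := N b - N a with hδ
  have hδ0 : 0 < δ := by rw [hδ]; linarith
  have hstep : ∀ k : ℕ, δ ≤ N (a + (k + 1) * h) - N (a + k * h) := by
    intro k
    induction k with
    | zero =>
      have e : a + ((0:ℕ) + 1) * h = b := by rw [hh]; push_cast; ring
      have e' : a + ((0:ℕ):ℝ) * h = a := by push_cast; ring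
      rw [e, e']
    | succ k ih =>
      have h1 : 0 < a + k * h := by positivity
      have h2 : 0 < a + (k + 2) * h := by positivity
      have h3 := hmid _ _ h1 h2
      have e : (a + k * h + (a + (k + 2) * h)) / 2 = a + (k + 1) * h := by ring
      rw [e] at h3
      push_cast
      have e2 : a + ((k:ℝ) + 1 + 1) * h = a + (k + 2) * h := by ring
      rw [e2]
      linarith
  have hgrow : ∀ k : ℕ, N a + k * δ ≤ N (a + k * h) := by
    intro k
    induction k with
    | zero => simp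
    | succ k ih =>
      have := hstep k
      push_cast
      linarith
  obtain ⟨k, hk⟩ := exists_nat_gt ((M - N a) / δ)
  rw [div_lt_iff₀ hδ0] at hk
  have h1 := hgrow k
  have h2 := hM (a + k * h) (by positivity)
  linarith

variable {H : Type*} [NormedAddCommGroup H] [InnerProductSpace ℂ H] [CompleteSpace H]

theorem exists_limit {u : ℝ → H} {M : ℝ} (hM : ∀ a, 0 < a → ‖u a‖ ^ 2 ≤ M)
    (hmid : ∀ a b, 0 < a → 0 < b → ⟪u a, u b⟫_ℂ = ⟪u ((a + b) / 2), u ((a + b) / 2)⟫_ℂ) :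
    ∃ x : H, Tendsto u (𝓝[>] 0) (𝓝 x) := by
  set N : ℝ → ℝ := fun a => ‖u a‖ ^ 2 with hN
  have hsub : ∀ a b, 0 < a → 0 < b → ‖u a - u b‖ ^ 2 = N a + N b - 2 * N ((a + b) / 2) := by
    intro a b ha hb
    rw [@norm_sub_sq ℂ, hmid a b ha hb, inner_self_eq_norm_sq_to_K]
    rw [hN]
    simp only
    have : (RCLike.re ((‖u ((a + b) / 2)‖ : ℂ) ^ 2) : ℝ) = ‖u ((a + b) / 2)‖ ^ 2 := by
      rw [← Complex.ofReal_pow]
      exact Complex.ofReal_re _
    have h2 : (RCLike.re (((‖u ((a + b) / 2)‖ : ℝ) : ℂ) ^ 2) : ℝ) = ‖u ((a + b) / 2)‖ ^ 2 := this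
    simp only [Complex.coe_algebraMap]
    rw [h2]
    ring
  have hmid' : ∀ a b, 0 < a → 0 < b → 2 * N ((a + b) / 2) ≤ N a + N b := by
    intro a b ha hb
    have h1 := hsub a b ha hb
    have h2 : 0 ≤ ‖u a - u b‖ ^ 2 := by positivity
    linarith
  have hanti := antitone_of_midpoint (N := N) hM hmid'
  -- the supremum
  set L : ℝ := sSup (N '' Set.Ioi 0) with hL
  have hbdd : BddAbove (N '' Set.Ioi 0) := ⟨M, by rintro _ ⟨a, ha, rfl⟩; exact hM a ha⟩
  have hne : (N '' Set.Ioi 0).Nonempty := ⟨N 1, ⟨1, by simp, rfl⟩⟩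
  have hle : ∀ a, 0 < a → N a ≤ L := fun a ha => le_csSup hbdd ⟨a, ha, rfl⟩
  have hnear : ∀ ε, 0 < ε → ∃ r, 0 < r ∧ ∀ a, 0 < a → a < r → L - ε < N a := by
    intro ε hε
    obtain ⟨_, ⟨r, hr, rfl⟩, hr'⟩ := exists_lt_of_lt_csSup hne (show L - ε < L by linarith)
    refine ⟨r, hr, fun a ha har => ?_⟩
    exact lt_of_lt_of_le hr' (hanti a r ha har.le)
  have hC : Cauchy (map u (𝓝[>] (0:ℝ))) := by
    rw [Metric.cauchy_iff]
    refine ⟨inferInstance, fun ε hε => ?_⟩
    obtain ⟨r, hr, hr'⟩ := hnear (ε ^ 2 / 4) (by positivity)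
    refine ⟨u '' (Set.Ioo 0 r), image_mem_map (Ioo_mem_nhdsGT hr), ?_⟩
    rintro _ ⟨a, ha, rfl⟩ _ ⟨b, hb, rfl⟩
    rw [dist_eq_norm]
    have h1 := hsub a b ha.1 hb.1
    have h2 := hle a ha.1
    have h3 := hle b hb.1
    have h4 := hr' ((a + b) / 2) (by have := ha.1; have := hb.1; linarith)
      (by have := ha.2; have := hb.2; linarith)
    have h5 : ‖u a - u b‖ ^ 2 < ε ^ 2 := by nlinarith
    exact lt_of_pow_lt_pow_left₀ 2 hε.le h5
  obtain ⟨x, hx⟩ := CompleteSpace.complete hC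
  exact ⟨x, hx⟩

/-! ### the transforms -/

variable {d : ℕ}

/-- `⟪w, G(z) w⟫` as a function of `z` -/
def FF (V : Cfg d) (w : L2 d) (z : ℂ) : ℂ := ⟪w, G V z w⟫_ℂ

/-- the bounded transform as a function of `z` -/
def GG (V : Cfg d) (w : L2 d) (z : ℂ) : ℂ := FF V w z / (FF V w z + Complex.I) / (z + Complex.I)

theorem FF_im (V : Cfg d) (w : L2 d) {z : ℂ} (hz : 0 < z.im) : 0 ≤ (FF V w z).im := by
  unfold FF
  rw [(isRes_G V).im_inner hz.ne']
  positivity

theorem FF_ne (V : Cfg d) (w : L2 d) {z : ℂ} (hz : 0 < z.im) : FF V w z + Complex.I ≠ 0 := by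
  intro h
  have h1 := congrArg Complex.im h
  have h2 := FF_im V w hz
  simp at h1
  linarith

theorem zI_ne {z : ℂ} (hz : 0 < z.im) : z + Complex.I ≠ 0 := by
  intro h
  have h1 := congrArg Complex.im h
  simp at h1
  linarith

theorem GG_diff (V : Cfg d) (w : L2 d) (z : ℂ) (hz : 0 < z.im) :
    DifferentiableAt ℂ (GG V w) z := by
  have hF : DifferentiableAt ℂ (FF V w) z :=
    ((isRes_G V).hasDerivAt_inner hz.ne' w w).differentiableAt
  exact (hF.div (hF.add_const _) (FF_ne V w hz)).div (differentiableAt_id.add_const _) (zI_ne hz)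

theorem GG_norm (V : Cfg d) (w : L2 d) (z : ℂ) (hz : 0 < z.im) :
    ‖GG V w z‖ ≤ ‖z + Complex.I‖⁻¹ := by
  unfold GG
  rw [norm_div, div_eq_mul_inv]
  have h1 : ‖FF V w z / (FF V w z + Complex.I)‖ ≤ 1 := by
    rw [norm_div]
    have h2 : 0 < ‖FF V w z + Complex.I‖ := norm_pos_iff.2 (FF_ne V w hz)
    rw [div_le_one h2]
    have h3 : ‖FF V w z‖ ^ 2 ≤ ‖FF V w z + Complex.I‖ ^ 2 := by
      rw [← Complex.normSq_eq_norm_sq, ← Complex.normSq_eq_norm_sq, Complex.normSq_apply,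
        Complex.normSq_apply]
      have := FF_im V w hz
      simp
      nlinarith
    exact (pow_le_pow_iff_left₀ (norm_nonneg _) (norm_nonneg _) two_ne_zero).1 h3
  calc _ ≤ 1 * ‖z + Complex.I‖⁻¹ := by gcongr
    _ = _ := one_mul _

variable {μ : Measure ℝ} [IsProbabilityMeasure μ]

/-- the product measure with Lebesgue measure on energies -/
abbrev QQ (d : ℕ) (μ : Measure ℝ) [IsProbabilityMeasure μ] : Measure (Cfg d × ℝ) :=
  (PP d μ).prod volume

theorem lam_le : lam ≤ volume := by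
  unfold lam
  refine (withDensity_mono (g := fun _ => 1) (Eventually.of_forall fun E => ?_)).trans
    (le_of_eq (withDensity_one))
  rw [show (1:ℝ≥0∞) = ENNReal.ofReal 1 by simp]
  refine ENNReal.ofReal_le_ofReal (inv_le_one_of_one_le₀ ?_)
  nlinarith [sq_nonneg E]

theorem KK_le : KK d μ ≤ QQ d μ := Measure.prod_mono le_rfl lam_le

theorem gw_meas {w : Cfg d → L2 d} (hw : StronglyMeasurable w) {ε : ℝ} (hε : ε ≠ 0) :
    StronglyMeasurable (gw w ε) := by
  have h1 : StronglyMeasurable fun p : Cfg d × ℝ => G p.1 (zz ε p.2) (w p.1) := by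
    have h2 := continuous_G (d := d) hε
    refine h2.comp_stronglyMeasurable (f := fun p : Cfg d × ℝ => (p.1, p.2, w p.1)) ?_
    refine measurable_fst.stronglyMeasurable.prodMk (measurable_snd.stronglyMeasurable.prodMk ?_)
    exact hw.comp_measurable measurable_fst
  have h3 : Measurable (Fw w ε) :=
    ((hw.comp_measurable measurable_fst).inner h1).measurable
  have h4 : Measurable fun p : Cfg d × ℝ => zz ε p.2 :=
    (continuous_zz ε).measurable.comp measurable_snd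
  exact ((h3.div (h3.add_const _)).div (h4.add_const _)).stronglyMeasurable

theorem gw_eq (w : Cfg d → L2 d) (ε : ℝ) (p : Cfg d × ℝ) :
    gw w ε p = GG p.1 (w p.1) (zz ε p.2) := rfl

theorem norm_zz_inv_le {ε : ℝ} (hε : 0 < ε) (E : ℝ) :
    ‖zz ε E + Complex.I‖⁻¹ ^ 2 ≤ (1 + E ^ 2)⁻¹ := by
  have e : zz ε E + Complex.I = zz (ε + 1) E := by unfold zz; push_cast; ring
  rw [e, inv_pow, normSq_zz]
  refine inv_anti₀ (by positivity) ?_
  nlinarith

theorem gw_sq_le (w : Cfg d → L2 d) {ε : ℝ} (hε : 0 < ε) (p : Cfg d × ℝ) :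
    ‖gw w ε p‖ ^ 2 ≤ (1 + p.2 ^ 2)⁻¹ := by
  rw [gw_eq]
  have h1 := GG_norm p.1 (w p.1) (zz ε p.2) (by simpa using hε)
  calc ‖GG p.1 (w p.1) (zz ε p.2)‖ ^ 2 ≤ (‖zz ε p.2 + Complex.I‖⁻¹) ^ 2 := by gcongr
    _ ≤ _ := norm_zz_inv_le hε p.2

theorem integrable_bd : Integrable (fun p : Cfg d × ℝ => (1 + p.2 ^ 2)⁻¹) (QQ d μ) :=
  integrable_inv_one_add_sq.comp_snd _

theorem gw_memLp {w : Cfg d → L2 d} (hw : StronglyMeasurable w) {ε : ℝ} (hε : 0 < ε) :
    MemLp (gw w ε) 2 (QQ d μ) := by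
  refine (memLp_two_iff_integrable_sq_norm (gw_meas hw hε.ne').aestronglyMeasurable).2 ?_
  refine integrable_bd.mono' ?_ (Eventually.of_forall fun p => ?_)
  · exact ((gw_meas hw hε.ne').norm.pow 2).aestronglyMeasurable
  · rw [Real.norm_of_nonneg (by positivity)]
    exact gw_sq_le w hε p

/-- the transforms as elements of `L²` -/
def uu (μ : Measure ℝ) [IsProbabilityMeasure μ] {w : Cfg d → L2 d} (hw : StronglyMeasurable w)
    (ε : ℝ) : Lp ℂ 2 (QQ d μ) :=
  if hε : 0 < ε then (gw_memLp hw hε).toLp (gw w ε) else 0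

theorem integrable_mul {w : Cfg d → L2 d} (hw : StronglyMeasurable w) {a b : ℝ} (ha : 0 < a)
    (hb : 0 < b) : Integrable (fun p : Cfg d × ℝ => conj (gw w a p) * gw w b p) (QQ d μ) := by
  refine integrable_bd.mono' ?_ (Eventually.of_forall fun p => ?_)
  · exact ((Complex.continuous_conj.comp_stronglyMeasurable (gw_meas hw ha.ne')).mul
      (gw_meas hw hb.ne')).aestronglyMeasurable
  · rw [norm_mul, RCLike.norm_conj]
    have h1 := gw_sq_le w ha p
    have h2 := gw_sq_le w hb p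
    nlinarith [sq_nonneg (‖gw w a p‖ - ‖gw w b p‖)]

theorem uu_inner {w : Cfg d → L2 d} (hw : StronglyMeasurable w) {a b : ℝ} (ha : 0 < a)
    (hb : 0 < b) : ⟪uu μ hw a, uu μ hw b⟫_ℂ = ∫ V, ∫ E, conj (gw w a (V, E)) * gw w b (V, E)
      ∂(volume : Measure ℝ) ∂(PP d μ) := by
  rw [← integral_prod (fun p : Cfg d × ℝ => conj (gw w a p) * gw w b p)
    (integrable_mul hw ha hb), L2.inner_def]
  unfold uu
  rw [dif_pos ha, dif_pos hb]
  refine integral_congr_ae ?_
  filter_upwards [(gw_memLp (μ := μ) hw ha).coeFn_toLp, (gw_memLp (μ := μ) hw hb).coeFn_toLp]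
    with p h1 h2
  rw [h1, h2, RCLike.inner_apply, mul_comm]

theorem uu_mid {w : Cfg d → L2 d} (hw : StronglyMeasurable w) {a b : ℝ} (ha : 0 < a)
    (hb : 0 < b) : ⟪uu μ hw a, uu μ hw b⟫_ℂ =
      ⟪uu μ hw ((a + b) / 2), uu μ hw ((a + b) / 2)⟫_ℂ := by
  have hab : 0 < (a + b) / 2 := by linarith
  rw [uu_inner hw ha hb, uu_inner hw hab hab]
  refine integral_congr_ae (Eventually.of_forall fun V => ?_)
  exact midpoint (g := GG V (w V)) (GG_diff V (w V)) (GG_norm V (w V)) ha hb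

theorem uu_bdd {w : Cfg d → L2 d} (hw : StronglyMeasurable w) {a : ℝ} (ha : 0 < a) :
    ‖uu μ hw a‖ ^ 2 ≤ ∫ p : Cfg d × ℝ, (1 + p.2 ^ 2)⁻¹ ∂(QQ d μ) := by
  have h1 : ‖uu μ hw a‖ ^ 2 = ∫ p : Cfg d × ℝ, ‖gw w a p‖ ^ 2 ∂(QQ d μ) := by
    have h2 : (‖uu μ hw a‖ ^ 2 : ℝ) = RCLike.re ⟪uu μ hw a, uu μ hw a⟫_ℂ := by
      rw [inner_self_eq_norm_sq]
    rw [h2, L2.inner_def]
    have h3 : ∫ p, ⟪(uu μ hw a : Cfg d × ℝ → ℂ) p, (uu μ hw a : Cfg d × ℝ → ℂ) p⟫_ℂ ∂(QQ d μ) =
        ∫ p : Cfg d × ℝ, ((‖gw w a p‖ ^ 2 : ℝ) : ℂ) ∂(QQ d μ) := by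
      refine integral_congr_ae ?_
      unfold uu
      rw [dif_pos ha]
      filter_upwards [(gw_memLp (μ := μ) hw ha).coeFn_toLp] with p h4
      rw [h4, inner_self_eq_norm_sq_to_K]
      push_cast
      rfl
    rw [h3]
    have h5 : ∫ p : Cfg d × ℝ, ((‖gw w a p‖ ^ 2 : ℝ) : ℂ) ∂(QQ d μ) =
        ((∫ p : Cfg d × ℝ, ‖gw w a p‖ ^ 2 ∂(QQ d μ) : ℝ) : ℂ) := integral_ofReal
    rw [h5]
    exact Complex.ofReal_re _
  rw [h1]
  refine integral_mono_of_nonneg (Eventually.of_forall fun p => by positivity) integrable_bd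
    (Eventually.of_forall fun p => gw_sq_le w ha p)

end Pool.Agent.QE.Cau

namespace Pool.Agent.QE

open Cau Pool.Agent.Anderson Pool.Agent.Helper54.Bal

theorem cauchy : CauchyStatement := by
  intro d μ _ w hw C _
  obtain ⟨x, hx⟩ := exists_limit (u := uu μ hw) (fun a ha => uu_bdd hw ha)
    (fun a b ha hb => uu_mid hw ha hb)
  have hm : StronglyMeasurable (x : Cfg d × ℝ → ℂ) := Lp.stronglyMeasurable x
  refine ⟨x, hm.measurable, fun δ hδ => ?_⟩
  have h1 := tendstoInMeasure_of_tendsto_Lp hx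
  have h2 := h1 (ENNReal.ofReal δ) (ENNReal.ofReal_pos.2 hδ)
  refine tendsto_of_tendsto_of_tendsto_of_le_of_le' tendsto_const_nhds h2
    (Eventually.of_forall fun _ => bot_le) ?_
  filter_upwards [self_mem_nhdsWithin] with ε hε
  have hε' : 0 < ε := hε
  have h3 : (uu μ hw ε : Cfg d × ℝ → ℂ) =ᵐ[QQ d μ] gw w ε := by
    unfold uu
    rw [dif_pos hε']
    exact (gw_memLp (μ := μ) hw hε').coeFn_toLp
  refine (KK_le _).trans ?_
  refine measure_mono_ae ?_
  filter_upwards [h3] with p h4 h5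
  change ENNReal.ofReal δ ≤ edist _ _
  rw [h4, edist_dist, dist_eq_norm]
  exact ENNReal.ofReal_le_ofReal h5

end Pool.Agent.QE
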