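import Pool.Agent.Helper54_QE.Defs

/-!
# Module GRAPH: connectivity of the Green function
-/

set_option autoImplicit false
set_option linter.unusedSectionVars false

open scoped ComplexConjugate

noncomputable section

namespace Pool.Agent.QE

open Pool.Agent.Anderson

/-- a nonempty set of sites closed under passing to neighbours is everything -/
theorem eq_univ_of_closed {d : ℕ} {B : Set (Site d)} (hB : B.Nonempty)
    (hp : ∀ x ∈ B, ∀ i : Fin d, x + Pi.single i 1 ∈ B)
    (hm : ∀ x ∈ B, ∀ i : Fin d, x - Pi.single i 1 ∈ B) : B = Set.univ := by
  obtain ⟨y, hy⟩ := hB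
  have h1 : ∀ (i : Fin d) (n : ℤ) (x : Site d), x ∈ B → x + Pi.single i n ∈ B := by
    intro i n
    induction n using Int.induction_on with
    | zero => intro x hx; simpa using hx
    | succ n ih =>
      intro x hx
      have h2 := hp _ (ih x hx) i
      rwa [add_assoc, ← Pi.single_add] at h2
    | pred n ih =>
      intro x hx
      have h2 := hm _ (ih x hx) i
      rwa [add_sub_assoc, ← Pi.single_sub] at h2
  have h2 : ∀ (x : Site d) (s : Finset (Fin d)), y + ∑ i ∈ s, Pi.single i (x i) ∈ B := by
    intro x s
    classical
    induction s using Finset.induction_on with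
    | empty => simpa using hy
    | insert i s hi ih =>
      rw [Finset.sum_insert hi]
      have h3 := h1 i (x i) _ ih
      have e : y + (Pi.single i (x i) + ∑ i ∈ s, Pi.single i (x i)) =
          y + ∑ i ∈ s, Pi.single i (x i) + Pi.single i (x i) := by abel
      rw [e]
      exact h3
  ext x
  simp only [Set.mem_univ, iff_true]
  have h3 := h2 (x - y) Finset.univ
  rw [Finset.univ_sum_single] at h3
  simpa using h3

theorem graph : GraphStatement := by
  intro d V E g hsym hg B hB hBg
  classical
  set b : Site d → ℂ := fun w => if w ∈ B then 1 else 0 with hb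
  have key : ∀ x ∉ B, ∀ z ∈ B, (∑ i : Fin d, ((if x + Pi.single i 1 = z then (1:ℕ) else 0) +
      (if x - Pi.single i 1 = z then (1:ℕ) else 0))) = 0 := by
    intro x hx z hz
    have hS : ∀ y : Site d, ∑ i : Fin d, (b (x + Pi.single i 1) * g (x + Pi.single i 1) y +
        b (x - Pi.single i 1) * g (x - Pi.single i 1) y) = 0 := by
      intro y
      by_cases hy : y ∈ B
      · have h1 := hg x y
        have hxy : x ≠ y := fun h => hx (h ▸ hy)
        rw [if_neg hxy, hsym x y, hBg y hy x hx, mul_zero, add_zero] at h1
        rw [← h1]
        unfold lap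
        refine Finset.sum_congr rfl fun i _ => ?_
        have h2 : ∀ w : Site d, b w * g w y = g w y := by
          intro w
          by_cases hw : w ∈ B
          · simp [hb, hw]
          · rw [hsym w y, hBg y hy w hw, mul_zero]
        rw [h2, h2]
      · refine Finset.sum_eq_zero fun i _ => ?_
        have h2 : ∀ w : Site d, b w * g w y = 0 := by
          intro w
          by_cases hw : w ∈ B
          · rw [hBg w hw y hy, mul_zero]
          · simp [hb, hw]
        rw [h2, h2, add_zero]
    -- apply the equation in the second variable at `z`
    have h3 : ∀ w : Site d, lap (fun y => g w y) z + ((V z : ℂ) - E) * g w z =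
        if w = z then 1 else 0 := by
      intro w
      have h4 := hg z w
      have e : (fun y => g w y) = fun y => g y w := by
        funext y; exact hsym w y
      rw [e, hsym w z, h4]
      by_cases h : w = z
      · rw [if_pos h, if_pos h.symm]
      · rw [if_neg h, if_neg (Ne.symm h)]
    have h4 : ∑ i : Fin d, (b (x + Pi.single i 1) * (lap (fun y => g (x + Pi.single i 1) y) z +
        ((V z : ℂ) - E) * g (x + Pi.single i 1) z) +
        b (x - Pi.single i 1) * (lap (fun y => g (x - Pi.single i 1) y) z +
        ((V z : ℂ) - E) * g (x - Pi.single i 1) z)) = 0 := by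
      have e : ∀ i : Fin d, (b (x + Pi.single i 1) * (lap (fun y => g (x + Pi.single i 1) y) z +
          ((V z : ℂ) - E) * g (x + Pi.single i 1) z) +
          b (x - Pi.single i 1) * (lap (fun y => g (x - Pi.single i 1) y) z +
          ((V z : ℂ) - E) * g (x - Pi.single i 1) z)) =
          (∑ j : Fin d, ((b (x + Pi.single i 1) * g (x + Pi.single i 1) (z + Pi.single j 1) +
            b (x - Pi.single i 1) * g (x - Pi.single i 1) (z + Pi.single j 1)) +
            (b (x + Pi.single i 1) * g (x + Pi.single i 1) (z - Pi.single j 1) +
            b (x - Pi.single i 1) * g (x - Pi.single i 1) (z - Pi.single j 1)))) +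
          ((V z : ℂ) - E) * (b (x + Pi.single i 1) * g (x + Pi.single i 1) z +
            b (x - Pi.single i 1) * g (x - Pi.single i 1) z) := by
        intro i
        unfold lap
        have e2 : ∀ j : Fin d, ((b (x + Pi.single i 1) * g (x + Pi.single i 1)
            (z + Pi.single j 1) +
            b (x - Pi.single i 1) * g (x - Pi.single i 1) (z + Pi.single j 1)) +
            (b (x + Pi.single i 1) * g (x + Pi.single i 1) (z - Pi.single j 1) +
            b (x - Pi.single i 1) * g (x - Pi.single i 1) (z - Pi.single j 1))) =
            b (x + Pi.single i 1) * (g (x + Pi.single i 1) (z + Pi.single j 1) +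
              g (x + Pi.single i 1) (z - Pi.single j 1)) +
            b (x - Pi.single i 1) * (g (x - Pi.single i 1) (z + Pi.single j 1) +
              g (x - Pi.single i 1) (z - Pi.single j 1)) := fun j => by ring
        have e3 : ∑ j : Fin d, (b (x + Pi.single i 1) * (g (x + Pi.single i 1)
            (z + Pi.single j 1) + g (x + Pi.single i 1) (z - Pi.single j 1)) +
            b (x - Pi.single i 1) * (g (x - Pi.single i 1) (z + Pi.single j 1) +
              g (x - Pi.single i 1) (z - Pi.single j 1))) =
            b (x + Pi.single i 1) * (∑ j : Fin d, (g (x + Pi.single i 1)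
              (z + Pi.single j 1) + g (x + Pi.single i 1) (z - Pi.single j 1))) +
            b (x - Pi.single i 1) * (∑ j : Fin d, (g (x - Pi.single i 1) (z + Pi.single j 1) +
              g (x - Pi.single i 1) (z - Pi.single j 1))) := by
          rw [Finset.sum_add_distrib, Finset.mul_sum, Finset.mul_sum]
        rw [Finset.sum_congr rfl fun j _ => e2 j, e3]
        ring
      rw [Finset.sum_congr rfl fun i _ => e i, Finset.sum_add_distrib, ← Finset.mul_sum, hS z,
        mul_zero, add_zero, Finset.sum_comm]
      refine Finset.sum_eq_zero fun j _ => ?_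
      rw [Finset.sum_add_distrib, hS, hS, add_zero]
    have h5 : ∑ i : Fin d, ((if x + Pi.single i 1 = z then (1:ℂ) else 0) +
      (if x - Pi.single i 1 = z then (1:ℂ) else 0)) = 0 := by
      refine Eq.trans (Finset.sum_congr rfl fun i _ => ?_) h4
      rw [h3, h3]
      have e : ∀ w : Site d, b w * (if w = z then (1:ℂ) else 0) = if w = z then (1:ℂ) else 0 := by
        intro w
        by_cases h : w = z
        · rw [if_pos h, mul_one, h, hb]
          simp [hz]
        · rw [if_neg h, mul_zero]
      rw [e, e]
    exact_mod_cast h5
  refine eq_univ_of_closed hB ?_ ?_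
  · intro z hz i
    by_contra hx
    have h := key _ hx z hz
    have h2 := Finset.sum_eq_zero_iff.1 h i (Finset.mem_univ i)
    rw [add_sub_cancel_right, if_pos rfl] at h2
    omega
  · intro z hz i
    by_contra hx
    have h := key _ hx z hz
    have h2 := Finset.sum_eq_zero_iff.1 h i (Finset.mem_univ i)
    rw [sub_add_cancel, if_pos rfl] at h2
    omega

end Pool.Agent.QE
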